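import Pool.Agent.Lib.MP_7874c9_co.G7.Main
import Pool.Agent.Lib.MP_7874c9_co.G7.Sharp

open Pool.Agent.Lib.MP_7874c9_co.G7 in
/-- For all large `n` the largest girth of a `C₆`-saturated graph on `n` vertices is `7`. -/
theorem Pool.Agent.Results.MP_7874c9_co.GirthSeven.result :
    ∃ n₀ : ℕ, ∀ n : ℕ, n₀ ≤ n →
      IsGreatest {g : ℕ∞ | ∃ G : SimpleGraph (Fin n),
        (¬ (SimpleGraph.cycleGraph 6).IsContained G ∧
          ∀ u v : Fin n, u ≠ v → ¬ G.Adj u v →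
            (SimpleGraph.cycleGraph 6).IsContained (G ⊔ SimpleGraph.edge u v)) ∧
        G.egirth = g} 7 := by
  obtain ⟨n₀, h⟩ := Filter.eventually_atTop.1 exists_prime
  refine ⟨max n₀ 3, fun n hn => ?_⟩
  obtain ⟨q, hq, h4, h0, h1, h2⟩ := h n (le_trans (le_max_left _ _) hn)
  have h3 : 3 ≤ n := le_trans (le_max_right _ _) hn
  have := Fact.mk hq
  have e : q * q ^ 2 ≤ 8 * (q / 5) * q ^ 2 := Nat.mul_le_mul_right _ (by omega)
  obtain ⟨G, hG, c3, c4, c5⟩ := graph_of_card (good_zmod h4 (by omega)) (r := q / 5) (n := n)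
    (by rw [ZMod.card]; omega) (by rw [ZMod.card]; exact h1) (by rw [ZMod.card]; nlinarith)
  exact ⟨⟨G, hG, le_antisymm (egirth_le_of_sat h3 G hG.1 hG.2) (seven_le_egirth c3 c4 c5 hG.1)⟩,
    fun g ⟨G, hG, e⟩ => e ▸ egirth_le_of_sat h3 G hG.1 hG.2⟩
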